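import Pool.Agent.Helper43.BL.Main

namespace Pool.Agent.Results.MP_1502ad_an.ExtensionFails

open Pool.Agent.Helper43.BL

/-- There is a short exact sequence `0 → J → A → B → 0` of Banach lattices with `J` and `B`
semiprojective and `A` not semiprojective. -/
theorem result : ∃ (J A B : Type) (_ : BanachLattice J) (_ : BanachLattice A)
    (_ : BanachLattice B) (i : J → A) (q : A → B),
    IsShortExact i q ∧ Semiprojective J ∧ Semiprojective B ∧ ¬ Semiprojective A :=
  main

end Pool.Agent.Results.MP_1502ad_an.ExtensionFails
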